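import Pool.Agent.MGP.Stmts

/-!
# MGP, row VRS: total variation of the class between the corners
-/

set_option autoImplicit false

namespace Pool.Agent.MGP.H60

open Pool.Agent.MGP

theorem prod_lt (X Y A B N : ℤ) (hY : 0 < Y) (hX : X ≤ A) (hB : Y ≤ B) (hA : 0 ≤ A)
    (h : A * B < N) : X * Y < N := by
  have h1 : X * Y ≤ A * Y := mul_le_mul_of_nonneg_right hX hY.le
  have h2 : A * Y ≤ A * B := mul_le_mul_of_nonneg_left hB hA
  linarith

/-- the arithmetic over the integers -/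
theorem aux (N z H E σ t t' h h' : ℤ) (hE : 0 ≤ E) (hh : 0 ≤ h) (hh' : 0 ≤ h') (hH : 1000 ≤ H)
    (hz : 34000 * H ≤ z) (h1 : N ≤ σ) (h2 : σ ≤ N + E + 1) (ht' : z ≤ t') (ht : t' ≤ t)
    (ht2 : 100 * t ≤ 101 * z) (hN : 500 * H * (E + 70 * z) ≤ N) (a1 : h ^ 2 + σ < t ^ 2)
    (a2 : t ^ 2 < (h + 2) ^ 2 + σ) (a3 : 25 * h ≤ 232 * H) (b1 : h' ^ 2 + σ < t' ^ 2)
    (b2 : t' ^ 2 < (h' + 2) ^ 2 + σ) (b3 : 25 * h' ≤ 116 * H) :
    ((t' + h' + 20) * (t' - h') - (t + h + 22) * (t - h - 2)) *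
      ((t' + h' + 20) * (t' - h') - N) < N ∧
    ((t + h) * (t - h + 40) - (t' + h' + 2) * (t' - h' + 38)) *
      ((t + h) * (t - h + 40) - N) < N ∧
    ((t + h + 20) * (t - h + 40) - (t' + h' + 22) * (t' - h' + 38)) *
      ((t + h + 20) * (t - h + 40) - N) < N := by
  -- the difference of the `t`
  have hD : 60 * (t - t') ≤ H := by
    have hD0 : 0 ≤ t - t' := by linarith
    have e1 : 2 * z * (t - t') ≤ (t + t') * (t - t') :=
      mul_le_mul_of_nonneg_right (by linarith) hD0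
    have e2 : (t + t') * (t - t') = t ^ 2 - t' ^ 2 := by ring
    have e3 : 625 * (h + 2) ^ 2 ≤ 54289 * H ^ 2 := by
      have e4 : 25 * (h + 2) ≤ 233 * H := by linarith
      have e5 : (25 * (h + 2)) ^ 2 ≤ (233 * H) ^ 2 :=
        pow_le_pow_left₀ (by linarith) e4 2
      nlinarith
    have e6 : 68000 * H * (t - t') ≤ 2 * z * (t - t') :=
      mul_le_mul_of_nonneg_right (by linarith) hD0
    have e7 : H * (68000 * (t - t')) ≤ H * (87 * H) := by nlinarith [sq_nonneg h']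
    have e8 : 68000 * (t - t') ≤ 87 * H := le_of_mul_le_mul_left e7 (by linarith)
    linarith
  -- `A * B < N`
  have hAB : 410 * H * (E + 70 * z) < N := by
    have : 0 < H * (E + 70 * z) := mul_pos (by linarith) (by linarith)
    nlinarith
  have hA : (0 : ℤ) ≤ 410 * H := by linarith
  refine ⟨?_, ?_, ?_⟩
  · refine prod_lt _ _ (410 * H) (E + 70 * z) N ?_ ?_ ?_ hA hAB
    · nlinarith
    · nlinarith
    · nlinarith
  · refine prod_lt _ _ (410 * H) (E + 70 * z) N ?_ ?_ ?_ hA hAB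
    · nlinarith
    · nlinarith
    · nlinarith
  · refine prod_lt _ _ (410 * H) (E + 70 * z) N ?_ ?_ ?_ hA hAB
    · nlinarith
    · nlinarith
    · nlinarith

theorem vrs (hP : PrbStmt) : VrsStmt := by
  intro N z H E σ K K' t t' h h' par h1 h2 h3 h4 h5 h6 h7 h8 s s'
  obtain ⟨p1, p2, p3, p4⟩ := hP N z H E par
  obtain ⟨-, z1, z2, z3, z4, z5, z6⟩ := par
  obtain ⟨-, a1, a2, a3, a4⟩ := s
  obtain ⟨-, b1, b2, b3, b4⟩ := s'
  exact aux N z H E σ t t' h h' (by positivity) (by positivity) (by positivity)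
    (by exact_mod_cast z5) (by exact_mod_cast p1) (by exact_mod_cast h1) (by exact_mod_cast h2)
    (by exact_mod_cast h6) (by exact_mod_cast h7) (by exact_mod_cast h8) (by exact_mod_cast z6)
    (by exact_mod_cast a1) (by exact_mod_cast a2) (by omega) (by exact_mod_cast b1)
    (by exact_mod_cast b2) (by omega)

end Pool.Agent.MGP.H60
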